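import Mathlib

/-!
# X170 : Faber polynomials of the Miller basis, the constant coefficient (MP_86f038_nt)
-/

set_option autoImplicit false

namespace Pool.Agent.X170.Miller

open PowerSeries

/-- `E₄ = 1 + 240 Σ σ₃(n) qⁿ` -/
noncomputable def E4 : PowerSeries ℂ :=
  PowerSeries.mk fun n => if n = 0 then 1 else 240 * (ArithmeticFunction.sigma 3 n : ℂ)

/-- `E₆ = 1 - 504 Σ σ₅(n) qⁿ` -/
noncomputable def E6 : PowerSeries ℂ :=
  PowerSeries.mk fun n => if n = 0 then 1 else -504 * (ArithmeticFunction.sigma 5 n : ℂ)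

/-- `Δ = (E₄³ - E₆²) / 1728` -/
noncomputable def Dl : PowerSeries ℂ := PowerSeries.C (1 / 1728 : ℂ) * (E4 ^ 3 - E6 ^ 2)

/-- `Δ^ℓ F(j)` for `deg F ≤ ℓ`, `j = E₄³ / Δ` -/
noncomputable def form (l : ℕ) (F : Polynomial ℂ) : PowerSeries ℂ :=
  ∑ i ∈ Finset.range (l + 1), PowerSeries.C (F.coeff i) * (E4 ^ (3 * i) * Dl ^ (l - i))

/-- `F = F_{12 l, m}` -/
def IsFaber (l m : ℕ) (F : Polynomial ℂ) : Prop :=
  F.Monic ∧ F.natDegree = l - m ∧
    ∀ n ≤ l, PowerSeries.coeff n (form l F) = if n = m then 1 else 0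

/-- `U = Δ / q` -/
noncomputable def U : PowerSeries ℂ := PowerSeries.mk fun n => PowerSeries.coeff (n + 1) Dl

theorem E4_zero : PowerSeries.constantCoeff E4 = 1 := by
  rw [← PowerSeries.coeff_zero_eq_constantCoeff_apply]
  simp [E4]

theorem E6_zero : PowerSeries.constantCoeff E6 = 1 := by
  rw [← PowerSeries.coeff_zero_eq_constantCoeff_apply]
  simp [E6]

theorem Dl_zero : PowerSeries.coeff 0 Dl = 0 := by
  rw [PowerSeries.coeff_zero_eq_constantCoeff_apply]
  simp [Dl, E4_zero, E6_zero]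

theorem Dl_eq : Dl = PowerSeries.X * U := by
  ext n
  cases n with
  | zero =>
    rw [Dl_zero]
    simp
  | succ n =>
    rw [PowerSeries.coeff_succ_X_mul]
    simp [U]

/-- the logarithmic derivatives -/
noncomputable def e : PowerSeries ℂ := PowerSeries.X * PowerSeries.derivative ℂ E4 * E4⁻¹

noncomputable def h : PowerSeries ℂ := PowerSeries.X * PowerSeries.derivative ℂ U * U⁻¹

noncomputable def J : PowerSeries ℂ := E4 ^ 3 * U⁻¹

noncomputable def G : PowerSeries ℂ := 1 - 3 * e + h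

theorem E4_mul_inv : E4 * E4⁻¹ = 1 := PowerSeries.mul_inv_cancel _ (by rw [E4_zero]; exact one_ne_zero)

theorem U_mul_inv (hU : PowerSeries.constantCoeff U = 1) : U * U⁻¹ = 1 :=
  PowerSeries.mul_inv_cancel _ (by rw [hU]; exact one_ne_zero)

theorem J_deriv (hU : PowerSeries.constantCoeff U = 1) :
    J - PowerSeries.X * PowerSeries.derivative ℂ J = G * J := by
  have h1 := E4_mul_inv
  have h2 := U_mul_inv hU
  have hd : PowerSeries.derivative ℂ J = 3 * E4 ^ 2 * PowerSeries.derivative ℂ E4 * U⁻¹ +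
      E4 ^ 3 * (-U⁻¹ ^ 2 * PowerSeries.derivative ℂ U) := by
    unfold J
    rw [Derivation.leibniz, PowerSeries.derivative_inv', Derivation.leibniz_pow]
    simp only [smul_eq_mul, nsmul_eq_mul, Nat.cast_ofNat]
    ring
  rw [hd]
  unfold G e h J
  have h3 : E4 ^ 3 * E4⁻¹ = E4 ^ 2 := by
    calc E4 ^ 3 * E4⁻¹ = E4 ^ 2 * (E4 * E4⁻¹) := by ring
      _ = E4 ^ 2 := by rw [h1, mul_one]
  linear_combination (3 * PowerSeries.X * PowerSeries.derivative ℂ E4 * U⁻¹) * h3

theorem coeff_GJ (hU : PowerSeries.constantCoeff U = 1) (i : ℕ) (hi : 1 ≤ i) :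
    PowerSeries.coeff i (G * J ^ i) = 0 := by
  obtain ⟨k, rfl⟩ : ∃ k, i = k + 1 := ⟨i - 1, by omega⟩
  have h1 : ((k + 1 : ℕ) : PowerSeries ℂ) * (G * J ^ (k + 1)) =
      ((k + 1 : ℕ) : PowerSeries ℂ) * J ^ (k + 1) -
        PowerSeries.X * PowerSeries.derivative ℂ (J ^ (k + 1)) := by
    rw [Derivation.leibniz_pow]
    simp only [smul_eq_mul, nsmul_eq_mul, Nat.add_sub_cancel]
    have h2 := J_deriv hU
    have h3 : G * J ^ (k + 1) = (G * J) * J ^ k := by ring
    rw [h3, ← h2]
    ring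
  have h4 := congrArg (PowerSeries.coeff (k + 1)) h1
  have hC : ((k + 1 : ℕ) : PowerSeries ℂ) = PowerSeries.C ((k + 1 : ℕ) : ℂ) := by
    rw [map_natCast]
  rw [map_sub, PowerSeries.coeff_succ_X_mul, PowerSeries.coeff_derivative, hC,
    PowerSeries.coeff_C_mul, PowerSeries.coeff_C_mul] at h4
  have h5 : (((k + 1 : ℕ) : ℂ)) ≠ 0 := by exact_mod_cast Nat.succ_ne_zero k
  have h6 : ((k + 1 : ℕ) : ℂ) * PowerSeries.coeff (k + 1) (G * J ^ (k + 1)) = 0 := by
    rw [h4]
    push_cast
    ring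
  exact (mul_eq_zero.1 h6).resolve_left h5

theorem G_zero : PowerSeries.coeff 0 G = 1 := by
  rw [PowerSeries.coeff_zero_eq_constantCoeff_apply]
  simp [G, e, h]

/-- `V = U^{-l}` -/
noncomputable def V (l : ℕ) : PowerSeries ℂ := (U⁻¹) ^ l

theorem coeff_zero_eq (hU : PowerSeries.constantCoeff U = 1) (l m : ℕ) (hml : m ≤ l)
    (F : Polynomial ℂ) (hF : IsFaber l m F) :
    F.coeff 0 = PowerSeries.coeff (l - m) (G * V l) := by
  obtain ⟨_, _, hco⟩ := hF
  have hUU := U_mul_inv hU
  -- the form is q^m modulo q^{l+1}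
  have h1 : PowerSeries.X ^ (l + 1) ∣ form l F - PowerSeries.X ^ m := by
    rw [PowerSeries.X_pow_dvd_iff]
    intro n hn
    rw [map_sub, hco n (by omega), PowerSeries.coeff_X_pow]
    simp
  obtain ⟨R, hR⟩ := h1
  have h2 : form l F = PowerSeries.X ^ m + PowerSeries.X ^ (l + 1) * R := by
    rw [← hR]; ring
  have h3 : PowerSeries.coeff l (form l F * (G * V l)) = PowerSeries.coeff (l - m) (G * V l) := by
    rw [h2, add_mul, map_add, PowerSeries.coeff_X_pow_mul', if_pos hml, mul_assoc,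
      PowerSeries.coeff_X_pow_mul', if_neg (by omega), add_zero]
  rw [← h3]
  unfold form
  rw [Finset.sum_mul, map_sum, Finset.sum_eq_single 0]
  · have e1 : PowerSeries.C (F.coeff 0) * (E4 ^ (3 * 0) * Dl ^ (l - 0)) * (G * V l) =
        PowerSeries.C (F.coeff 0) * (PowerSeries.X ^ l * G) := by
      rw [Dl_eq, Nat.sub_zero, mul_pow]
      unfold V
      have : U ^ l * (U⁻¹) ^ l = 1 := by rw [← mul_pow, hUU, one_pow]
      calc PowerSeries.C (F.coeff 0) * (E4 ^ (3 * 0) * (PowerSeries.X ^ l * U ^ l)) *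
            (G * (U⁻¹) ^ l) = PowerSeries.C (F.coeff 0) * (PowerSeries.X ^ l * G) *
            (U ^ l * (U⁻¹) ^ l) := by ring
        _ = _ := by rw [this, mul_one]
    rw [e1, PowerSeries.coeff_C_mul, PowerSeries.coeff_X_pow_mul', if_pos le_rfl, Nat.sub_self,
      G_zero, mul_one]
  · intro i hi hi0
    rw [Finset.mem_range] at hi
    have e1 : PowerSeries.C (F.coeff i) * (E4 ^ (3 * i) * Dl ^ (l - i)) * (G * V l) =
        PowerSeries.C (F.coeff i) * (PowerSeries.X ^ (l - i) * (G * J ^ i)) := by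
      rw [Dl_eq, mul_pow]
      unfold V J
      have h5 : (U⁻¹) ^ l = (U⁻¹) ^ (l - i) * (U⁻¹) ^ i := by
        rw [← pow_add]
        congr 1
        omega
      have : U ^ (l - i) * (U⁻¹) ^ (l - i) = 1 := by rw [← mul_pow, hUU, one_pow]
      rw [h5, mul_pow, ← pow_mul]
      calc PowerSeries.C (F.coeff i) * (E4 ^ (3 * i) * (PowerSeries.X ^ (l - i) * U ^ (l - i))) *
            (G * ((U⁻¹) ^ (l - i) * (U⁻¹) ^ i)) =
            PowerSeries.C (F.coeff i) * (PowerSeries.X ^ (l - i) * (G * (E4 ^ (3 * i) * (U⁻¹) ^ i))) *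
            (U ^ (l - i) * (U⁻¹) ^ (l - i)) := by ring
        _ = _ := by rw [this, mul_one]
    rw [e1, PowerSeries.coeff_C_mul, PowerSeries.coeff_X_pow_mul', if_pos (by omega)]
    have h6 : l - (l - i) = i := by omega
    rw [h6, coeff_GJ hU i (by omega), mul_zero]
  · intro h0
    exact absurd (Finset.mem_range.2 (by omega)) h0

/-- a monic polynomial of even degree with negative value at `0` has a root off `[0, 1728]` -/
theorem root_off (F : Polynomial ℂ) (hF : F.Monic) (hD : Even F.natDegree) (c : ℝ) (hc : c < 0)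
    (h0 : F.coeff 0 = (c : ℂ)) :
    ∃ x : ℂ, F.IsRoot x ∧ ¬ (x.im = 0 ∧ 0 ≤ x.re ∧ x.re ≤ 1728) := by
  by_contra hcon
  push Not at hcon
  have h1 := (IsAlgClosed.splits F).coeff_zero_eq_prod_roots_of_monic hF
  rw [hD.neg_one_pow, one_mul] at h1
  have h2 : ∀ s : Multiset ℂ, (∀ x ∈ s, x.im = 0 ∧ 0 ≤ x.re) →
      ∃ r : ℝ, 0 ≤ r ∧ s.prod = (r : ℂ) := by
    intro s
    induction s using Multiset.induction_on with
    | empty => intro _; exact ⟨1, zero_le_one, by simp⟩
    | cons a s ih =>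
      intro hs
      obtain ⟨r, hr, hr2⟩ := ih (fun x hx => hs x (Multiset.mem_cons_of_mem hx))
      obtain ⟨ha1, ha2⟩ := hs a (Multiset.mem_cons_self a s)
      refine ⟨a.re * r, mul_nonneg ha2 hr, ?_⟩
      rw [Multiset.prod_cons, hr2]
      have : a = (a.re : ℂ) := Complex.ext (by simp) (by simp [ha1])
      rw [this]
      push_cast
      simp
  obtain ⟨r, hr, hr2⟩ := h2 F.roots (by
    intro x hx
    have := hcon x ((Polynomial.mem_roots hF.ne_zero).1 hx)
    exact ⟨this.1, this.2.1⟩)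
  rw [h0, hr2] at h1
  have : c = r := by exact_mod_cast h1
  linarith

/-! ### existence and uniqueness -/

theorem coeff_base (hU : PowerSeries.constantCoeff U = 1) (a k n : ℕ) (hn : n ≤ k) :
    PowerSeries.coeff n (E4 ^ a * Dl ^ k) = if n = k then 1 else 0 := by
  have h1 : E4 ^ a * Dl ^ k = PowerSeries.X ^ k * (E4 ^ a * U ^ k) := by
    rw [Dl_eq, mul_pow]
    ring
  rw [h1, PowerSeries.coeff_X_pow_mul']
  by_cases h : n = k
  · subst h
    rw [if_pos le_rfl, if_pos rfl, Nat.sub_self, PowerSeries.coeff_zero_eq_constantCoeff_apply]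
    simp [E4_zero, hU]
  · rw [if_neg (by omega), if_neg h]

theorem form_add (l : ℕ) (F F' : Polynomial ℂ) : form l (F + F') = form l F + form l F' := by
  unfold form
  rw [← Finset.sum_add_distrib]
  refine Finset.sum_congr rfl fun i _ => ?_
  rw [Polynomial.coeff_add, map_add, add_mul]

theorem form_monomial (l k : ℕ) (hk : k ≤ l) (c : ℂ) :
    form l (Polynomial.monomial k c) = PowerSeries.C c * (E4 ^ (3 * k) * Dl ^ (l - k)) := by
  unfold form
  rw [Finset.sum_eq_single k]
  · rw [Polynomial.coeff_monomial, if_pos rfl]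
  · intro i _ hi
    rw [Polynomial.coeff_monomial, if_neg (Ne.symm hi), map_zero, zero_mul]
  · intro h
    exact absurd (Finset.mem_range.2 (by omega)) h

theorem exists_poly (hU : PowerSeries.constantCoeff U = 1) (l : ℕ) : ∀ d ≤ l + 1,
    ∀ T : PowerSeries ℂ, (∀ n < l + 1 - d, PowerSeries.coeff n T = 0) →
    ∃ F : Polynomial ℂ, (∀ i, d ≤ i → F.coeff i = 0) ∧
      (0 < d → F.coeff (d - 1) = PowerSeries.coeff (l + 1 - d) T) ∧
      ∀ n ≤ l, PowerSeries.coeff n (form l F) = PowerSeries.coeff n T := by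
  intro d
  induction d with
  | zero =>
    intro _ T hT
    refine ⟨0, by simp, fun h => absurd h (lt_irrefl 0), ?_⟩
    intro n hn
    rw [hT n (by omega)]
    simp [form]
  | succ d ih =>
    intro hd T hT
    set c : ℂ := PowerSeries.coeff (l - d) T with hc
    obtain ⟨F, hF1, _, hF3⟩ := ih (by omega)
      (T - PowerSeries.C c * (E4 ^ (3 * d) * Dl ^ (l - d))) (by
        intro n hn
        rw [map_sub, PowerSeries.coeff_C_mul, coeff_base hU _ _ _ (by omega)]
        by_cases h : n = l - d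
        · rw [if_pos h, h, ← hc]
          ring
        · rw [if_neg h, hT n (by omega)]
          ring)
    refine ⟨F + Polynomial.monomial d c, ?_, ?_, ?_⟩
    · intro i hi
      rw [Polynomial.coeff_add, hF1 i (by omega), Polynomial.coeff_monomial, if_neg (by omega),
        add_zero]
    · intro _
      have e1 : l + 1 - (d + 1) = l - d := by omega
      rw [Nat.add_sub_cancel, Polynomial.coeff_add, hF1 d le_rfl, Polynomial.coeff_monomial,
        if_pos rfl, zero_add, e1]
    · intro n hn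
      rw [form_add, form_monomial l d (by omega), map_add, hF3 n hn, map_sub]
      ring

theorem exists_faber (hU : PowerSeries.constantCoeff U = 1) (l m : ℕ) (hml : m ≤ l) :
    ∃ F : Polynomial ℂ, IsFaber l m F := by
  obtain ⟨F, h1, h2, h3⟩ := exists_poly hU l (l - m + 1) (by omega) (PowerSeries.X ^ m) (by
    intro n hn
    rw [PowerSeries.coeff_X_pow, if_neg (by omega)])
  have e1 : l + 1 - (l - m + 1) = m := by omega
  rw [Nat.add_sub_cancel, e1, PowerSeries.coeff_X_pow, if_pos rfl] at h2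
  have h4 := h2 (by omega)
  have hdeg : F.natDegree = l - m := by
    apply le_antisymm
    · rw [Polynomial.natDegree_le_iff_coeff_eq_zero]
      intro i hi
      exact h1 i (by omega)
    · exact Polynomial.le_natDegree_of_ne_zero (by rw [h4]; exact one_ne_zero)
  refine ⟨F, ?_, hdeg, ?_⟩
  · unfold Polynomial.Monic Polynomial.leadingCoeff
    rw [hdeg, h4]
  · intro n hn
    rw [h3 n hn, PowerSeries.coeff_X_pow]

theorem faber_unique (hU : PowerSeries.constantCoeff U = 1) (l m : ℕ) (F F' : Polynomial ℂ)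
    (hF : IsFaber l m F) (hF' : IsFaber l m F') : F = F' := by
  by_contra hne
  have h0 : F - F' ≠ 0 := sub_ne_zero.2 hne
  set P := F - F' with hP
  have hdeg : P.natDegree ≤ l := by
    refine (Polynomial.natDegree_sub_le _ _).trans ?_
    rw [hF.2.1, hF'.2.1]
    omega
  have h1 : form l F = form l F' + form l P := by
    rw [← form_add, hP]
    congr 1
    ring
  have h2 : PowerSeries.coeff (l - P.natDegree) (form l P) = 0 := by
    have h3 := hF.2.2 (l - P.natDegree) (by omega)
    rw [h1, map_add, hF'.2.2 (l - P.natDegree) (by omega)] at h3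
    exact add_eq_left.1 h3
  have h4 : PowerSeries.coeff (l - P.natDegree) (form l P) = P.coeff P.natDegree := by
    unfold form
    rw [map_sum, Finset.sum_eq_single P.natDegree]
    · rw [PowerSeries.coeff_C_mul, coeff_base hU _ _ _ le_rfl, if_pos rfl, mul_one]
    · intro i hi hine
      rw [Finset.mem_range] at hi
      rw [PowerSeries.coeff_C_mul]
      rcases lt_or_gt_of_ne hine with h | h
      · rw [coeff_base hU _ _ _ (by omega), if_neg (by omega), mul_zero]
      · rw [Polynomial.coeff_eq_zero_of_natDegree_lt h, zero_mul]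
    · intro h
      exact absurd (Finset.mem_range.2 (by omega)) h
  rw [h4] at h2
  exact h0 (Polynomial.leadingCoeff_eq_zero.1 h2)

end Pool.Agent.X170.Miller
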