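import Pool.Agent.X170.Miller.Formal

/-!
# X170 : truncated power series as lists of integers
-/

set_option autoImplicit false

namespace Pool.Agent.X170.Miller

open PowerSeries

/-- dot product -/
def dot : List ℤ → List ℤ → ℤ
  | x :: xs, y :: ys => x * y + dot xs ys
  | _, _ => 0

/-- convolution -/
def conv (a b : List ℤ) : List ℤ :=
  (List.range b.length).map (fun n => dot a ((b.take (n + 1)).reverse))

/-- `n ↦ n aₙ` -/
def nmul (a : List ℤ) : List ℤ :=
  (List.range a.length).map (fun (n : ℕ) => ((n : ℤ) * a.getD n 0 : ℤ))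

theorem getD_map_range (f : ℕ → ℤ) (k n : ℕ) (hn : n < k) :
    ((List.range k).map f).getD n 0 = f n := by
  rw [List.getD_eq_getElem _ _ (by simpa using hn)]
  simp

theorem dot_nil (a : List ℤ) : dot a [] = 0 := by cases a <;> rfl

theorem dot_eq : ∀ (l a : List ℤ), dot a l = ∑ i ∈ Finset.range l.length, a.getD i 0 * l.getD i 0
  | [], a => by rw [dot_nil]; simp
  | y :: ys, [] => by
    show (0 : ℤ) = _
    symm
    apply Finset.sum_eq_zero
    intro i _
    simp
  | y :: ys, x :: xs => by
    show x * y + dot xs ys = _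
    rw [List.length_cons, Finset.sum_range_succ', dot_eq ys xs, add_comm]
    simp

theorem dot_take (a b : List ℤ) (n : ℕ) (hn : n < b.length) :
    dot a ((b.take (n + 1)).reverse) = ∑ i ∈ Finset.range (n + 1), a.getD i 0 * b.getD (n - i) 0 := by
  rw [dot_eq]
  have hlen : ((b.take (n + 1)).reverse).length = n + 1 := by
    rw [List.length_reverse, List.length_take]
    omega
  rw [hlen]
  refine Finset.sum_congr rfl fun i hi => ?_
  rw [Finset.mem_range] at hi
  congr 1
  rw [List.getD_eq_getElem _ _ (by rw [hlen]; exact hi), List.getD_eq_getElem _ _ (by omega),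
    List.getElem_reverse, List.getElem_take]
  congr 1
  rw [List.length_take]
  omega

theorem conv_getD (a b : List ℤ) (n : ℕ) (hn : n < b.length) :
    (conv a b).getD n 0 = ∑ i ∈ Finset.range (n + 1), a.getD i 0 * b.getD (n - i) 0 := by
  unfold conv
  rw [getD_map_range _ _ _ hn, dot_take a b n hn]

/-- the list represents the series up to `q^N` -/
def Rep (N : ℕ) (a : List ℤ) (A : PowerSeries ℂ) : Prop :=
  ∀ n ≤ N, PowerSeries.coeff n A = ((a.getD n 0 : ℤ) : ℂ)

theorem coeff_mul_range (A B : PowerSeries ℂ) (n : ℕ) :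
    PowerSeries.coeff n (A * B) =
      ∑ i ∈ Finset.range (n + 1), PowerSeries.coeff i A * PowerSeries.coeff (n - i) B := by
  rw [PowerSeries.coeff_mul, Finset.Nat.sum_antidiagonal_eq_sum_range_succ_mk]

theorem Rep.mono {N M : ℕ} {a : List ℤ} {A : PowerSeries ℂ} (h : Rep N a A) (hM : M ≤ N) :
    Rep M a A := fun n hn => h n (hn.trans hM)

theorem rep_mul {N : ℕ} {a b : List ℤ} {A B : PowerSeries ℂ} (hA : Rep N a A) (hB : Rep N b B)
    (hlen : N < b.length) : Rep N (conv a b) (A * B) := by
  intro n hn
  rw [coeff_mul_range, conv_getD a b n (by omega), Int.cast_sum]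
  refine Finset.sum_congr rfl fun i hi => ?_
  rw [Finset.mem_range] at hi
  rw [hA i (by omega), hB (n - i) (by omega), Int.cast_mul]

theorem rep_div {N : ℕ} {a e t : List ℤ} {A E T : PowerSeries ℂ} (hA : Rep N a A)
    (ha : a.getD 0 0 = 1) (hT : Rep N t T) (hAE : A * E = T) (hlen : N < e.length)
    (hchk : conv a e = t) : Rep N e E := by
  intro n
  induction n using Nat.strong_induction_on with
  | _ n ih =>
    intro hn
    have h1 : PowerSeries.coeff n (A * E) = ((t.getD n 0 : ℤ) : ℂ) := by rw [hAE]; exact hT n hn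
    rw [← hchk, conv_getD a e n (by omega), coeff_mul_range, Finset.sum_range_succ',
      Finset.sum_range_succ', hA 0 (Nat.zero_le _), ha, Int.cast_add, Int.cast_sum] at h1
    have h2 : ∑ k ∈ Finset.range n, PowerSeries.coeff (k + 1) A * PowerSeries.coeff (n - (k + 1)) E =
        ∑ k ∈ Finset.range n, ((a.getD (k + 1) 0 * e.getD (n - (k + 1)) 0 : ℤ) : ℂ) := by
      refine Finset.sum_congr rfl fun i hi => ?_
      rw [Finset.mem_range] at hi
      rw [hA (i + 1) (by omega), ih (n - (i + 1)) (by omega) (by omega), Int.cast_mul]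
    rw [h2, Nat.sub_zero] at h1
    simpa using h1

theorem coeff_X_deriv (V : PowerSeries ℂ) (n : ℕ) :
    PowerSeries.coeff n (PowerSeries.X * PowerSeries.derivative ℂ V) =
      (n : ℂ) * PowerSeries.coeff n V := by
  cases n with
  | zero => simp
  | succ n =>
    rw [PowerSeries.coeff_succ_X_mul, PowerSeries.coeff_derivative]
    push_cast
    ring

theorem rep_nmul {N : ℕ} {a : List ℤ} {A : PowerSeries ℂ} (hA : Rep N a A) (hlen : N < a.length) :
    Rep N (nmul a) (PowerSeries.X * PowerSeries.derivative ℂ A) := by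
  intro n hn
  rw [coeff_X_deriv, hA n hn]
  unfold nmul
  rw [getD_map_range _ _ _ (by omega)]
  push_cast
  rfl

theorem rep_ode {N : ℕ} {w v : List ℤ} {W V : PowerSeries ℂ} (hW : Rep N w W)
    (hw : w.getD 0 0 = 0) (hV : PowerSeries.X * PowerSeries.derivative ℂ V = W * V)
    (hV0 : PowerSeries.coeff 0 V = 1) (hv : v.getD 0 0 = 1) (hlen : N < v.length)
    (hchk : conv w v = nmul v) : Rep N v V := by
  intro n
  induction n using Nat.strong_induction_on with
  | _ n ih =>
    intro hn
    rcases Nat.eq_zero_or_pos n with rfl | hpos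
    · rw [hV0, hv]
      simp
    · have h1 := congrArg (PowerSeries.coeff n) hV
      have h2 : (conv w v).getD n 0 = (n : ℤ) * v.getD n 0 := by
        rw [hchk]
        unfold nmul
        rw [getD_map_range _ _ _ (by omega)]
      rw [conv_getD w v n (by omega), Finset.sum_range_succ', hw, zero_mul, add_zero] at h2
      rw [coeff_X_deriv, coeff_mul_range, Finset.sum_range_succ', hW 0 (Nat.zero_le _), hw,
        Int.cast_zero, zero_mul, add_zero] at h1
      have h3 : ∑ k ∈ Finset.range n, PowerSeries.coeff (k + 1) W *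
          PowerSeries.coeff (n - (k + 1)) V =
          ((∑ k ∈ Finset.range n, w.getD (k + 1) 0 * v.getD (n - (k + 1)) 0 : ℤ) : ℂ) := by
        rw [Int.cast_sum]
        refine Finset.sum_congr rfl fun i hi => ?_
        rw [Finset.mem_range] at hi
        rw [hW (i + 1) (by omega), ih (n - (i + 1)) (by omega) (by omega), Int.cast_mul]
      rw [h3, h2, Int.cast_mul, Int.cast_natCast] at h1
      have hn0 : (n : ℂ) ≠ 0 := by exact_mod_cast hpos.ne'
      exact mul_left_cancel₀ hn0 h1

/-- divisor power sums, computably -/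
def sg (k n : ℕ) : ℕ := ((List.range (n + 1)).map (fun d => if n % d = 0 then d ^ k else 0)).sum

theorem sum_map_range (f : ℕ → ℕ) (k : ℕ) :
    ((List.range k).map f).sum = ∑ d ∈ Finset.range k, f d := by
  induction k with
  | zero => simp
  | succ k ih => rw [List.range_succ, Finset.sum_range_succ]; simp [ih]

theorem sg_eq (k n : ℕ) (hk : 0 < k) (hn : 0 < n) : sg k n = ArithmeticFunction.sigma k n := by
  unfold sg
  rw [ArithmeticFunction.sigma_apply]
  have h1 : ((List.range (n + 1)).map (fun d => if n % d = 0 then d ^ k else 0)).sum =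
      ∑ d ∈ Finset.range (n + 1), (if n % d = 0 then d ^ k else 0) :=
    sum_map_range (fun d => if n % d = 0 then d ^ k else 0) (n + 1)
  rw [h1]
  rw [← Finset.sum_filter]
  symm
  apply Finset.sum_subset_zero_on_sdiff
  · intro d hd
    rw [Nat.mem_divisors] at hd
    rw [Finset.mem_filter, Finset.mem_range]
    exact ⟨Nat.lt_succ_of_le (Nat.le_of_dvd hn hd.1), Nat.mod_eq_zero_of_dvd hd.1⟩
  · intro d hd
    rw [Finset.mem_sdiff, Finset.mem_filter, Finset.mem_range, Nat.mem_divisors] at hd
    obtain ⟨⟨hd1, hd2⟩, hd3⟩ := hd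
    exact absurd ⟨Nat.dvd_of_mod_eq_zero hd2, hn.ne'⟩ hd3
  · intro d _
    rfl

end Pool.Agent.X170.Miller
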