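import Pool.Agent.X170.Miller.Data

/-!
# X170 : the Miller basis threshold (MP_86f038_nt), numerical part
-/

set_option autoImplicit false

namespace Pool.Agent.X170.Miller

open PowerSeries

theorem chk_e4 : e4L = (List.range 114).map
    (fun (n : ℕ) => if n = 0 then (1 : ℤ) else 240 * ((sg 3 n : ℕ) : ℤ)) := by decide +kernel

theorem chk_e6 : e6L = (List.range 114).map
    (fun (n : ℕ) => if n = 0 then (1 : ℤ) else -504 * ((sg 5 n : ℕ) : ℤ)) := by decide +kernel

theorem chk_c1 : conv e4L e4L = c1L := by decide +kernel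

theorem chk_c2 : conv e4L c1L = c2L := by decide +kernel

theorem chk_s : conv e6L e6L = sL := by decide +kernel

theorem chk_u : (List.range 113).map (fun (n : ℕ) => (1728 * uL.getD n 0 : ℤ)) =
    (List.range 113).map (fun (n : ℕ) => (c2L.getD (n + 1) 0 - sL.getD (n + 1) 0 : ℤ)) := by
  decide +kernel

theorem chk_h : conv uL hL = nmul uL := by decide +kernel

theorem chk_e : conv e4L eL = nmul e4L := by decide +kernel

theorem chk_g : (List.range 113).map (fun (n : ℕ) => (gL.getD n 0 : ℤ)) =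
    (List.range 113).map (fun (n : ℕ) => ((if n = 0 then 1 else 0) - 3 * eL.getD n 0 +
      hL.getD n 0 : ℤ)) := by decide +kernel

theorem chk_w1 : (List.range 113).map (fun (n : ℕ) => (w1L.getD n 0 : ℤ)) =
    (List.range 113).map (fun (n : ℕ) => (-160 * hL.getD n 0 : ℤ)) := by decide +kernel

theorem chk_w2 : (List.range 113).map (fun (n : ℕ) => (w2L.getD n 0 : ℤ)) =
    (List.range 113).map (fun (n : ℕ) => (-304 * hL.getD n 0 : ℤ)) := by decide +kernel

theorem chk_v1 : conv w1L v1L = nmul v1L := by decide +kernel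

theorem chk_v2 : conv w2L v2L = nmul v2L := by decide +kernel

theorem chk_neg1 : dot gL ((v1L.take (58 + 1)).reverse) < 0 := by decide +kernel

theorem chk_neg2 : dot gL ((v2L.take (112 + 1)).reverse) < 0 := by decide +kernel

theorem of_map {f g : ℕ → ℤ} {k : ℕ} (h : (List.range k).map f = (List.range k).map g) (n : ℕ)
    (hn : n < k) : f n = g n := by
  have := congrArg (fun l => l.getD n 0) h
  simpa only [getD_map_range _ _ _ hn] using this

theorem rep_E4 : Rep 113 e4L E4 := by
  intro n hn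
  have h1 : e4L.getD n 0 = if n = 0 then (1 : ℤ) else 240 * ((sg 3 n : ℕ) : ℤ) := by
    rw [chk_e4, getD_map_range _ _ _ (by omega)]
  rw [h1]
  unfold E4
  rw [PowerSeries.coeff_mk]
  rcases Nat.eq_zero_or_pos n with rfl | hpos
  · simp
  · rw [if_neg hpos.ne', if_neg hpos.ne', sg_eq 3 n (by norm_num) hpos]
    push_cast
    rfl

theorem rep_E6 : Rep 113 e6L E6 := by
  intro n hn
  have h1 : e6L.getD n 0 = if n = 0 then (1 : ℤ) else -504 * ((sg 5 n : ℕ) : ℤ) := by
    rw [chk_e6, getD_map_range _ _ _ (by omega)]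
  rw [h1]
  unfold E6
  rw [PowerSeries.coeff_mk]
  rcases Nat.eq_zero_or_pos n with rfl | hpos
  · simp
  · rw [if_neg hpos.ne', if_neg hpos.ne', sg_eq 5 n (by norm_num) hpos]
    push_cast
    rfl

theorem rep_E43 : Rep 113 c2L (E4 ^ 3) := by
  have h1 := rep_mul rep_E4 rep_E4 (by decide)
  rw [chk_c1] at h1
  have h2 := rep_mul rep_E4 h1 (by decide)
  rw [chk_c2] at h2
  have : E4 ^ 3 = E4 * (E4 * E4) := by ring
  rw [this]
  exact h2

theorem rep_E62 : Rep 113 sL (E6 ^ 2) := by
  have h1 := rep_mul rep_E6 rep_E6 (by decide)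
  rw [chk_s] at h1
  have : E6 ^ 2 = E6 * E6 := by ring
  rw [this]
  exact h1

theorem rep_U : Rep 112 uL U := by
  intro n hn
  have h1 := of_map chk_u n (by omega)
  unfold U Dl
  rw [PowerSeries.coeff_mk, PowerSeries.coeff_C_mul, map_sub, rep_E43 (n + 1) (by omega),
    rep_E62 (n + 1) (by omega)]
  have h2 : ((c2L.getD (n + 1) 0 : ℤ) : ℂ) - ((sL.getD (n + 1) 0 : ℤ) : ℂ) =
      1728 * ((uL.getD n 0 : ℤ) : ℂ) := by exact_mod_cast h1.symm
  rw [h2]
  ring

theorem U_zero : PowerSeries.constantCoeff U = 1 := by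
  rw [← PowerSeries.coeff_zero_eq_constantCoeff_apply, rep_U 0 (Nat.zero_le _)]
  have : uL.getD 0 0 = 1 := by decide +kernel
  rw [this]
  simp

theorem rep_h : Rep 112 hL h := by
  refine rep_div rep_U (by decide +kernel) (rep_nmul rep_U (by decide)) ?_ (by decide) chk_h
  unfold h
  have := U_mul_inv U_zero
  calc U * (PowerSeries.X * PowerSeries.derivative ℂ U * U⁻¹) =
      PowerSeries.X * PowerSeries.derivative ℂ U * (U * U⁻¹) := by ring
    _ = _ := by rw [this, mul_one]

theorem rep_e : Rep 113 eL e := by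
  refine rep_div rep_E4 (by decide +kernel) (rep_nmul rep_E4 (by decide)) ?_ (by decide) chk_e
  unfold e
  have := E4_mul_inv
  calc E4 * (PowerSeries.X * PowerSeries.derivative ℂ E4 * E4⁻¹) =
      PowerSeries.X * PowerSeries.derivative ℂ E4 * (E4 * E4⁻¹) := by ring
    _ = _ := by rw [this, mul_one]

theorem rep_G : Rep 112 gL G := by
  intro n hn
  have h1 := of_map chk_g n (by omega)
  unfold G
  have h3 : (3 : PowerSeries ℂ) = PowerSeries.C (3 : ℂ) := by rw [map_ofNat]
  rw [map_add, map_sub, h3, PowerSeries.coeff_C_mul, rep_e n (by omega), rep_h n hn, h1,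
    PowerSeries.coeff_one]
  split_ifs <;> push_cast <;> ring

theorem V_deriv (l : ℕ) :
    PowerSeries.X * PowerSeries.derivative ℂ (V l) = (PowerSeries.C (-(l : ℂ)) * h) * V l := by
  have h2 := U_mul_inv U_zero
  unfold V h
  rw [Derivation.leibniz_pow, PowerSeries.derivative_inv']
  simp only [smul_eq_mul, nsmul_eq_mul]
  cases l with
  | zero => simp
  | succ k =>
    rw [Nat.add_sub_cancel, pow_succ]
    have hC : PowerSeries.C (-((k + 1 : ℕ) : ℂ)) = -((k + 1 : ℕ) : PowerSeries ℂ) := by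
      rw [map_neg, map_natCast]
    rw [hC]
    ring

theorem rep_w {w : List ℤ} {l : ℕ} (hw : (List.range 113).map (fun (n : ℕ) => (w.getD n 0 : ℤ)) =
    (List.range 113).map (fun (n : ℕ) => (-(l : ℤ) * hL.getD n 0 : ℤ))) :
    Rep 112 w (PowerSeries.C (-(l : ℂ)) * h) := by
  intro n hn
  have h1 := of_map hw n (by omega)
  rw [PowerSeries.coeff_C_mul, rep_h n hn, h1]
  push_cast
  ring

theorem V_zero (l : ℕ) : PowerSeries.coeff 0 (V l) = 1 := by
  rw [PowerSeries.coeff_zero_eq_constantCoeff_apply]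
  unfold V
  rw [map_pow, PowerSeries.constantCoeff_inv, U_zero]
  simp

theorem rep_V1 : Rep 58 v1L (V 160) :=
  rep_ode ((rep_w (l := 160) (by simpa using chk_w1)).mono (by norm_num)) (by decide +kernel)
    (V_deriv 160) (V_zero 160) (by decide +kernel) (by decide) chk_v1

theorem rep_V2 : Rep 112 v2L (V 304) :=
  rep_ode (rep_w (l := 304) (by simpa using chk_w2)) (by decide +kernel)
    (V_deriv 304) (V_zero 304) (by decide +kernel) (by decide) chk_v2

theorem coeff_GV {l D : ℕ} {v : List ℤ} (hD : D ≤ 112) (hv : Rep D v (V l)) (hlen : D < v.length)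
    (hneg : dot gL ((v.take (D + 1)).reverse) < 0) :
    ∃ c : ℝ, c < 0 ∧ PowerSeries.coeff D (G * V l) = (c : ℂ) := by
  refine ⟨((dot gL ((v.take (D + 1)).reverse) : ℤ) : ℝ), by exact_mod_cast hneg, ?_⟩
  have h1 := rep_mul (rep_G.mono hD) hv hlen D le_rfl
  rw [h1, conv_getD _ _ _ hlen, dot_take _ _ _ hlen]
  push_cast
  rfl

/-- there is a root off `[0, 1728]` -/
def Off (l m : ℕ) : Prop :=
  ∃ F : Polynomial ℂ, IsFaber l m F ∧ ∃ x : ℂ, F.IsRoot x ∧ ¬ (x.im = 0 ∧ 0 ≤ x.re ∧ x.re ≤ 1728)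

theorem off_of {l m D : ℕ} {v : List ℤ} (hml : m ≤ l) (hDe : l - m = D) (hev : Even D)
    (hD : D ≤ 112) (hv : Rep D v (V l)) (hlen : D < v.length)
    (hneg : dot gL ((v.take (D + 1)).reverse) < 0) : Off l m := by
  obtain ⟨F, hF⟩ := exists_faber U_zero l m hml
  obtain ⟨c, hc, hc2⟩ := coeff_GV hD hv hlen hneg
  have h1 := coeff_zero_eq U_zero l m hml F hF
  rw [hDe, hc2] at h1
  exact ⟨F, hF, root_off F hF.1 (by rw [hF.2.1, hDe]; exact hev) c hc h1⟩

theorem off160 : Off 160 102 :=
  off_of (v := v1L) (D := 58) (by norm_num) (by norm_num) (by decide) (by norm_num) rep_V1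
    (by decide) chk_neg1

theorem off304 : Off 304 192 :=
  off_of (v := v2L) (D := 112) (by norm_num) (by norm_num) (by decide) (by norm_num) rep_V2
    (by decide) chk_neg2

end Pool.Agent.X170.Miller
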